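import Pool.Agent.W285.UB.Stm
import Pool.Agent.Helper259.AbsHt

/-! UB-HCNT: counting the Hénon maps with a point of small degree -/

set_option autoImplicit false

namespace Pool.Agent.W803.UB

open Pool.Agent.W285.UB NumberField Height Module Pool.Agent.Helper259.AbsHt

theorem one_le_ht (v : Fin 2 → Qbar) : 1 ≤ ht v := by
  unfold ht
  exact Real.one_le_exp (absLogHeight_nonneg v)

/-- the matrix of `(b + e g, 1)` as a linear function of the Segre product -/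
noncomputable def AA (p : Fin 2 × ((Fin 2 × Fin 2) × Fin 2)) : Qbar :=
  if p = (0, ((0, 1), 1)) ∨ p = (0, ((1, 0), 0)) ∨ p = (1, ((1, 1), 1)) then 1 else 0

theorem ht_add_mul : ∃ C : ℝ, 1 ≤ C ∧ ∀ b e g : Qbar,
    ht ![b + e * g, 1] ≤ C * (ht ![b, 1] * ht ![e, 1] * ht ![g, 1]) := by
  refine ⟨Real.exp (Real.log (Nat.card ((Fin 2 × Fin 2) × Fin 2)) + absLogHeight AA), ?_, ?_⟩
  · refine Real.one_le_exp (add_nonneg (Real.log_nonneg ?_) (absLogHeight_nonneg _))
    simp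
  · intro b e g
    have hx : (![b, 1] : Fin 2 → Qbar) ≠ 0 := fun h => by simpa using congrFun h 1
    have hy : (![e, 1] : Fin 2 → Qbar) ≠ 0 := fun h => by simpa using congrFun h 1
    have hz : (![g, 1] : Fin 2 → Qbar) ≠ 0 := fun h => by simpa using congrFun h 1
    have hxy : (fun a : Fin 2 × Fin 2 => (![b, 1] : Fin 2 → Qbar) a.1 * (![e, 1] : Fin 2 → Qbar) a.2) ≠ 0 :=
      fun h => by simpa using congrFun h (1, 1)
    have h1 := absLogHeight_linear AA
      (fun a : (Fin 2 × Fin 2) × Fin 2 =>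
        (fun a : Fin 2 × Fin 2 => (![b, 1] : Fin 2 → Qbar) a.1 * (![e, 1] : Fin 2 → Qbar) a.2) a.1 *
        (![g, 1] : Fin 2 → Qbar) a.2)
    rw [absLogHeight_segre hxy hz, absLogHeight_segre hx hy] at h1
    have h2 : (fun j => ∑ i : (Fin 2 × Fin 2) × Fin 2, AA (j, i) *
        ((fun a : Fin 2 × Fin 2 => (![b, 1] : Fin 2 → Qbar) a.1 * (![e, 1] : Fin 2 → Qbar) a.2) i.1 *
        (![g, 1] : Fin 2 → Qbar) i.2)) = ![b + e * g, 1] := by
      funext j
      rw [Fintype.sum_prod_type, Fintype.sum_prod_type]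
      fin_cases j <;> simp [Fin.sum_univ_two, AA]
    rw [h2] at h1
    unfold ht
    rw [← Real.exp_add, ← Real.exp_add, ← Real.exp_add]
    apply Real.exp_le_exp.2
    linarith

theorem house_one_le {K : Type} [Field K] [NumberField K] {B : ℝ} (hB : 1 ≤ B) :
    house B (1 : 𝓞 K) := by
  intro σ
  simpa using hB

theorem house_zero_le {K : Type} [Field K] [NumberField K] {B : ℝ} (hB : 1 ≤ B) :
    house B (0 : 𝓞 K) := by
  intro σ
  simpa using le_trans zero_le_one hB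

theorem fval_single {K : Type} [Field K] [NumberField K] (ι : K →+* Qbar) (d : ℕ)
    (v : Fin 2 → Qbar) :
    fval (io ι) (Pi.single 0 1 : Fin (d + 1) → 𝓞 K) v = v 1 ^ d := by
  unfold fval
  rw [Finset.sum_eq_single 0]
  · simp
  · intro i _ hi
    rw [Pi.single_eq_of_ne hi]
    simp
  · simp

theorem fval_top {K : Type} [Field K] [NumberField K] (ι : K →+* Qbar) (d : ℕ)
    (f : Fin (d + 1) → 𝓞 K) (v : Fin 2 → Qbar) (h1 : v 1 = 0) :
    fval (io ι) f v = io ι (f (Fin.last d)) * v 0 ^ d := by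
  unfold fval
  rw [Finset.sum_eq_single (Fin.last d)]
  · simp
  · intro i _ hi
    have : (i : ℕ) < d := by
      have h2 : (i : ℕ) ≠ d := fun h => hi (Fin.ext (by simpa using h))
      omega
    rw [h1, zero_pow (by omega)]
    simp
  · simp

theorem io_inj {K : Type} [Field K] [NumberField K] (ι : K →+* Qbar) :
    Function.Injective (io ι) := by
  intro x y h
  have := ι.injective h
  exact_mod_cast this

theorem size_bound (hint : S_HINT) (low : S_LOW) (K : Type) [Field K] [NumberField K]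
    (ι : K →+* Qbar) (d : ℕ) (hd : 3 ≤ d) (c : ℝ) (hc : 1 ≤ c)
    (hball : ∀ H : ℕ, ∀ z ∈ ball K H, house (c * H) z) :
    ∃ C1 : ℝ, 1 ≤ C1 ∧ ∀ H : ℕ, 1 ≤ H → ∀ f : Fin (d + 1) → 𝓞 K, (∀ i, f i ∈ ball K H) →
      ∀ δ ∈ ball K H, f (Fin.last d) ≠ 0 → ∀ α β γ : Qbar, ht ![β, 1] ≤ ht ![α, 1] →
        ht ![γ, 1] ≤ ht ![α, 1] → fval (io ι) f ![α, 1] = β + io ι δ * γ →
        ht ![α, 1] ^ (d - 2) ≤ C1 * (H : ℝ) ^ (2 * d) := by
  obtain ⟨C, hC1, hC⟩ := low d (by omega)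
  obtain ⟨C0, hC01, hC0⟩ := ht_add_mul
  refine ⟨C * c ^ (2 * d) * C0, ?_, ?_⟩
  · have : 1 ≤ c ^ (2 * d) := one_le_pow₀ hc
    have h2 : 1 ≤ C * c ^ (2 * d) := by nlinarith
    nlinarith
  · intro H hH f hf δ hδ hlast α β γ hβ hγ hF
    have hH' : (1 : ℝ) ≤ H := by exact_mod_cast hH
    have hB : 1 ≤ c * H := by nlinarith
    have hB0 : 0 ≤ c * H := by linarith
    have hlow := hC K ι (c * H) hB ![f, Pi.single 0 1] (by
      intro a i
      fin_cases a
      · exact hball H _ (hf i)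
      · show house (c * H) ((Pi.single 0 1 : Fin (d + 1) → 𝓞 K) i)
        by_cases hi : i = 0
        · subst hi
          rw [Pi.single_eq_same]
          exact house_one_le hB
        · rw [Pi.single_eq_of_ne hi]
          exact house_zero_le hB) (by
      intro v hv
      have h1 : v 1 = 0 := by
        have := congrFun hv 1
        have h2 : v 1 ^ d = 0 := by
          rw [← fval_single ι d v]
          exact this
        exact pow_eq_zero_iff (by omega) |>.1 h2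
      have h0 : v 0 = 0 := by
        have := congrFun hv 0
        have h2 : io ι (f (Fin.last d)) * v 0 ^ d = 0 := by
          rw [← fval_top ι d f v h1]
          exact this
        rcases mul_eq_zero.1 h2 with h3 | h3
        · exact absurd (io_inj ι (h3.trans (map_zero _).symm)) hlast
        · exact pow_eq_zero_iff (by omega) |>.1 h3
      funext j
      fin_cases j
      · exact h0
      · exact h1) ![α, 1] (fun h => by simpa using congrFun h 1)
    have hp : pval (io ι) ![f, Pi.single 0 1] ![α, 1] = ![β + io ι δ * γ, 1] := by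
      funext j
      fin_cases j
      · show fval (io ι) f ![α, 1] = _
        rw [hF]
        simp
      · show fval (io ι) (Pi.single 0 1 : Fin (d + 1) → 𝓞 K) ![α, 1] = _
        rw [fval_single]
        simp
    rw [hp] at hlow
    have hδ' : ht ![io ι δ, 1] ≤ c * H := by
      have h1 := hint K ι (Fin 2) ![δ, 1] (c * H) hB (by
        intro i
        fin_cases i
        · exact hball H _ hδ
        · exact house_one_le hB)
      have h2 : (fun i => io ι ((![δ, 1] : Fin 2 → 𝓞 K) i)) = ![io ι δ, 1] := by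
        funext i
        fin_cases i <;> simp
      rw [h2] at h1
      unfold ht
      calc Real.exp _ ≤ Real.exp (Real.log (c * H)) := Real.exp_le_exp.2 h1
        _ = c * H := Real.exp_log (by linarith)
    have hX1 : 1 ≤ ht ![α, 1] := one_le_ht _
    have hβ1 : 1 ≤ ht ![β, 1] := one_le_ht _
    have hγ1 : 1 ≤ ht ![γ, 1] := one_le_ht _
    have hδ1 : 1 ≤ ht ![io ι δ, 1] := one_le_ht _
    set X := ht ![α, 1] with hX
    have h3 : ht ![β + io ι δ * γ, 1] ≤ C0 * (X * (c * H) * X) := by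
      refine (hC0 β (io ι δ) γ).trans ?_
      gcongr
    have h4 : X ^ (d - 2) * X ^ 2 ≤ (C * c ^ (2 * d) * C0 * (H : ℝ) ^ (2 * d)) * X ^ 2 := by
      calc X ^ (d - 2) * X ^ 2 = X ^ d := by rw [← pow_add]; congr 1; omega
        _ ≤ C * (c * H) ^ (2 * d - 1) * ht ![β + io ι δ * γ, 1] := hlow
        _ ≤ C * (c * H) ^ (2 * d - 1) * (C0 * (X * (c * H) * X)) := by gcongr
        _ = C * ((c * H) ^ (2 * d - 1) * (c * H)) * C0 * X ^ 2 := by ring
        _ = C * (c * H) ^ (2 * d) * C0 * X ^ 2 := by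
            rw [← pow_succ]
            congr 4
            omega
        _ = _ := by rw [mul_pow]; ring
    exact le_of_mul_le_mul_right h4 (by positivity)

theorem hcnt : S_HINT → S_BALL → S_COUNT → S_FIB → S_LOW → S_REAL → S_HCNT := by
  classical
  intro hint hballs hcount hfib low hreal K _ _ ι d E hE hd
  set n := finrank ℚ K with hn
  have hn1 : 1 ≤ n := Module.finrank_pos
  set e := E * (E + 1) with he
  have he2 : 2 ≤ e := by
    rw [he]
    nlinarith
  obtain ⟨hballfin, c, hc, hball⟩ := hballs K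
  obtain ⟨C1, hC11, hC1⟩ := size_bound hint low K ι d (by omega) c hc hball
  obtain ⟨C3, hC31, hC3⟩ := hcount E
  obtain ⟨C4, hC40, hC4⟩ := hfib K ι d
  obtain ⟨C', hC'⟩ := hreal n d (3 * e) (d - 2) (2 * d) hn1 (by omega) (by omega) (by
    have h1 : (0 : ℝ) < ((d - 2 : ℕ) : ℝ) := by
      have : 0 < d - 2 := by omega
      exact_mod_cast this
    have h2 : ((d - 2 : ℕ) : ℝ) = d - 2 := by
      rw [Nat.cast_sub (by omega)]
      norm_num
    have h3 : (6 : ℝ) * e + 4 ≤ d := by exact_mod_cast hd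
    have h4 : (0 : ℝ) ≤ d := Nat.cast_nonneg _
    rw [div_le_iff₀ h1, h2]
    rw [h2] at h1
    push_cast
    nlinarith) (2 ^ (d - 2) * C1)
  refine ⟨C3 ^ 3 * 3 ^ n * C4 * C', ?_⟩
  intro H hH
  have hH' : (1 : ℝ) ≤ H := by exact_mod_cast hH
  have hH0 : (0 : ℝ) < H := by linarith
  -- the range of the heights
  obtain ⟨M, hM, hkM⟩ : ∃ M : ℕ, (M : ℝ) ^ (d - 2) ≤ 2 ^ (d - 2) * C1 * (H : ℝ) ^ (2 * d) ∧
      ∀ k : ℕ, (k : ℝ) ^ (d - 2) ≤ 2 ^ (d - 2) * C1 * (H : ℝ) ^ (2 * d) → k ≤ M := by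
    set R : ℝ := 2 ^ (d - 2) * C1 * (H : ℝ) ^ (2 * d) with hR
    have hR0 : 0 ≤ R := by positivity
    refine ⟨Nat.findGreatest (fun m => (m : ℝ) ^ (d - 2) ≤ R) ⌊R⌋₊, ?_, ?_⟩
    · refine Nat.findGreatest_spec (P := fun m : ℕ => (m : ℝ) ^ (d - 2) ≤ R) (m := 0)
        (Nat.zero_le _) ?_
      show ((0 : ℕ) : ℝ) ^ (d - 2) ≤ R
      rw [Nat.cast_zero, zero_pow (by omega)]
      exact hR0
    · intro k hk
      refine Nat.le_findGreatest ?_ hk
      refine Nat.le_floor ?_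
      rcases Nat.eq_zero_or_pos k with h0 | h0
      · subst h0
        simpa using hR0
      · have h1 : (1 : ℝ) ≤ k := by exact_mod_cast h0
        exact (le_self_pow₀ h1 (by omega)).trans hk
  -- the finite sets
  set bF : Finset (𝓞 K) := (hballfin H).1.toFinset with hbF
  have hbFc : bF.card = (2 * H + 1) ^ n := by
    rw [← (hballfin H).2, Set.ncard_eq_toFinset_card _ (hballfin H).1]
  have hbFm : ∀ z, z ∈ bF ↔ z ∈ ball K H := fun z => by rw [hbF, Set.Finite.mem_toFinset]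
  set PT : ℕ → Finset (Fin 2 → Qbar) := fun k =>
    if hk : 1 ≤ k then (hC3 k (by exact_mod_cast hk)).1.toFinset else ∅ with hPT
  have hPTm : ∀ k : ℕ, 1 ≤ k → ∀ v, v ∈ PT k ↔ v ∈ pts E k := by
    intro k hk v
    rw [hPT]
    simp only [hk, dif_pos, Set.Finite.mem_toFinset]
  have hPTc : ∀ k : ℕ, 1 ≤ k → ((PT k).card : ℝ) ≤ C3 * (k : ℝ) ^ e := by
    intro k hk
    have h1 : (PT k).card = (pts E k).ncard := by
      have h2 : ((PT k : Finset (Fin 2 → Qbar)) : Set (Fin 2 → Qbar)) = pts E k := by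
        ext v
        rw [Finset.mem_coe, hPTm k hk]
      rw [← h2, Set.ncard_coe_finset]
    rw [h1]
    exact (hC3 k (by exact_mod_cast hk)).2
  set fib : (Fin 2 → Qbar) → Qbar → Finset (Fin (d + 1) → 𝓞 K) := fun a t =>
    (Fintype.piFinset fun _ => bF).filter (fun f => fval (io ι) f a = t) with hfibd
  have hfibm : ∀ a t f, f ∈ fib a t ↔ (∀ i, f i ∈ ball K H) ∧ fval (io ι) f a = t := by
    intro a t f
    simp only [hfibd, Finset.mem_filter, Fintype.mem_piFinset, hbFm]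
  have hfibc : ∀ a, a ≠ 0 → ∀ t, ((fib a t).card : ℝ) ≤ C4 * (1 + H / ht a) ^ (n * d) := by
    intro a ha t
    have h1 := hC4 H hH a ha t
    have h2 : ({f | (∀ i, f i ∈ ball K H) ∧ fval (io ι) f a = t} :
        Set (Fin (d + 1) → 𝓞 K)) = ((fib a t : Finset _) : Set _) := by
      ext f
      rw [Finset.mem_coe, hfibm]
      rfl
    rw [h2, Set.ncard_coe_finset] at h1
    exact h1
  set TT : ℕ → Finset ((Fin 2 → Qbar) × (Fin 2 → Qbar) × (Fin 2 → Qbar)) := fun k =>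
    ((PT k) ×ˢ (PT k) ×ˢ (PT k)).filter (fun p => p.1 ≠ 0 ∧ (k : ℝ) ≤ 2 * ht p.1) with hTT
  set W : Finset ((Fin (d + 1) → 𝓞 K) × 𝓞 K) := (Finset.Icc 1 M).biUnion fun k =>
    (TT k).biUnion fun p => bF.biUnion fun δ =>
      (fib p.1 (p.2.1 0 + io ι δ * p.2.2 0)).image (fun f => (f, δ)) with hW
  have hcover : ({φ | (∀ i, φ.1 i ∈ ball K H) ∧ φ.2 ∈ ball K H ∧ φ.1 (Fin.last d) ≠ 0 ∧
      ∃ α β γ : Qbar, (minpoly ℚ α).natDegree ≤ E ∧ (minpoly ℚ β).natDegree ≤ E ∧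
        (minpoly ℚ γ).natDegree ≤ E ∧ ht ![β, 1] ≤ ht ![α, 1] ∧ ht ![γ, 1] ≤ ht ![α, 1] ∧
        fval (io ι) φ.1 ![α, 1] = β + io ι φ.2 * γ} :
      Set ((Fin (d + 1) → 𝓞 K) × 𝓞 K)) ⊆ (W : Set _) := by
    rintro ⟨f, δ⟩ ⟨hf, hδ, hlast, α, β, γ, hα, hβ, hγ, hβh, hγh, hF⟩
    simp only at hf hδ hlast hF
    have hX := hC1 H hH f hf δ hδ hlast α β γ hβh hγh hF
    have hX1 : 1 ≤ ht ![α, 1] := one_le_ht _
    set X := ht ![α, 1] with hXd
    set k := ⌈X⌉₊ with hk
    have hkX : X ≤ k := Nat.le_ceil _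
    have hk2 : (k : ℝ) ≤ 2 * X := by
      have := Nat.ceil_lt_add_one (by linarith : (0 : ℝ) ≤ X)
      linarith
    have hk1 : 1 ≤ k := by
      have : (1 : ℝ) ≤ k := hX1.trans hkX
      exact_mod_cast this
    have hkM' : k ≤ M := by
      apply hkM
      calc (k : ℝ) ^ (d - 2) ≤ (2 * X) ^ (d - 2) := by gcongr
        _ = 2 ^ (d - 2) * X ^ (d - 2) := mul_pow _ _ _
        _ ≤ 2 ^ (d - 2) * (C1 * (H : ℝ) ^ (2 * d)) := by gcongr
        _ = _ := by ring
    rw [Finset.mem_coe, hW, Finset.mem_biUnion]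
    refine ⟨k, Finset.mem_Icc.2 ⟨hk1, hkM'⟩, ?_⟩
    rw [Finset.mem_biUnion]
    refine ⟨(![α, 1], ![β, 1], ![γ, 1]), ?_, ?_⟩
    · rw [hTT]
      simp only [Finset.mem_filter, Finset.mem_product]
      refine ⟨⟨(hPTm k hk1 _).2 ⟨Or.inr ⟨α, hα, rfl⟩, hkX⟩,
        (hPTm k hk1 _).2 ⟨Or.inr ⟨β, hβ, rfl⟩, hβh.trans hkX⟩,
        (hPTm k hk1 _).2 ⟨Or.inr ⟨γ, hγ, rfl⟩, hγh.trans hkX⟩⟩,
        fun h => by simpa using congrFun h 1, hk2⟩
    · rw [Finset.mem_biUnion]
      refine ⟨δ, (hbFm δ).2 hδ, ?_⟩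
      rw [Finset.mem_image]
      refine ⟨f, (hfibm _ _ _).2 ⟨hf, ?_⟩, rfl⟩
      rw [hF]
      simp
  have hncard : (({φ | (∀ i, φ.1 i ∈ ball K H) ∧ φ.2 ∈ ball K H ∧ φ.1 (Fin.last d) ≠ 0 ∧
      ∃ α β γ : Qbar, (minpoly ℚ α).natDegree ≤ E ∧ (minpoly ℚ β).natDegree ≤ E ∧
        (minpoly ℚ γ).natDegree ≤ E ∧ ht ![β, 1] ≤ ht ![α, 1] ∧ ht ![γ, 1] ≤ ht ![α, 1] ∧
        fval (io ι) φ.1 ![α, 1] = β + io ι φ.2 * γ} :
      Set ((Fin (d + 1) → 𝓞 K) × 𝓞 K)).ncard : ℝ) ≤ (W.card : ℝ) := by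
    have := Set.ncard_le_ncard hcover (Finset.finite_toSet W)
    rw [Set.ncard_coe_finset] at this
    exact_mod_cast this
  refine hncard.trans ?_
  -- counting
  have hin : ∀ k : ℕ, 1 ≤ k → ∀ p ∈ TT k, (((bF.biUnion fun δ =>
      (fib p.1 (p.2.1 0 + io ι δ * p.2.2 0)).image (fun f => (f, δ))).card : ℕ) : ℝ) ≤
      (3 * (H : ℝ)) ^ n * (C4 * (1 + 2 * H / k) ^ (n * d)) := by
    intro k hk p hp
    rw [hTT] at hp
    simp only [Finset.mem_filter] at hp
    obtain ⟨_, hp0, hpk⟩ := hp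
    have hk0 : (0 : ℝ) < k := by exact_mod_cast hk
    have hht : 0 < ht p.1 := by linarith [one_le_ht p.1]
    have h1 : ∀ δ ∈ bF, (((fib p.1 (p.2.1 0 + io ι δ * p.2.2 0)).image
        (fun f => (f, δ))).card : ℝ) ≤ C4 * (1 + 2 * H / k) ^ (n * d) := by
      intro δ _
      have h2 : (((fib p.1 (p.2.1 0 + io ι δ * p.2.2 0)).image
        (fun f => (f, δ))).card : ℝ) ≤ ((fib p.1 (p.2.1 0 + io ι δ * p.2.2 0)).card : ℝ) := by
        exact_mod_cast Finset.card_image_le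
      refine h2.trans ((hfibc p.1 hp0 _).trans ?_)
      have h3 : (H : ℝ) / ht p.1 ≤ 2 * H / k := by
        rw [div_le_div_iff₀ hht hk0]
        nlinarith
      gcongr
    calc (((bF.biUnion fun δ =>
      (fib p.1 (p.2.1 0 + io ι δ * p.2.2 0)).image (fun f => (f, δ))).card : ℕ) : ℝ)
        ≤ ((∑ δ ∈ bF, ((fib p.1 (p.2.1 0 + io ι δ * p.2.2 0)).image
            (fun f => (f, δ))).card : ℕ) : ℝ) := by exact_mod_cast Finset.card_biUnion_le
      _ = ∑ δ ∈ bF, (((fib p.1 (p.2.1 0 + io ι δ * p.2.2 0)).image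
            (fun f => (f, δ))).card : ℝ) := by push_cast; rfl
      _ ≤ ∑ _δ ∈ bF, C4 * (1 + 2 * H / k) ^ (n * d) := Finset.sum_le_sum h1
      _ = (bF.card : ℝ) * (C4 * (1 + 2 * H / k) ^ (n * d)) := by
          rw [Finset.sum_const, nsmul_eq_mul]
      _ ≤ (3 * (H : ℝ)) ^ n * (C4 * (1 + 2 * H / k) ^ (n * d)) := by
          have h5 : (bF.card : ℝ) ≤ (3 * (H : ℝ)) ^ n := by
            rw [hbFc]
            push_cast
            gcongr
            linarith
          gcongr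
  have hmid : ∀ k ∈ Finset.Icc 1 M, ((((TT k).biUnion fun p => bF.biUnion fun δ =>
      (fib p.1 (p.2.1 0 + io ι δ * p.2.2 0)).image (fun f => (f, δ))).card : ℕ) : ℝ) ≤
      (C3 ^ 3 * 3 ^ n * C4 * (H : ℝ) ^ n) * ((k : ℝ) ^ (3 * e) * (1 + 2 * H / k) ^ (n * d)) := by
    intro k hk
    have hk1 := (Finset.mem_Icc.1 hk).1
    have hk0 : (0 : ℝ) < k := by exact_mod_cast hk1
    calc ((((TT k).biUnion fun p => bF.biUnion fun δ =>
      (fib p.1 (p.2.1 0 + io ι δ * p.2.2 0)).image (fun f => (f, δ))).card : ℕ) : ℝ)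
        ≤ ((∑ p ∈ TT k, (bF.biUnion fun δ =>
          (fib p.1 (p.2.1 0 + io ι δ * p.2.2 0)).image (fun f => (f, δ))).card : ℕ) : ℝ) := by
          exact_mod_cast Finset.card_biUnion_le
      _ = ∑ p ∈ TT k, ((bF.biUnion fun δ =>
          (fib p.1 (p.2.1 0 + io ι δ * p.2.2 0)).image (fun f => (f, δ))).card : ℝ) := by
          push_cast; rfl
      _ ≤ ∑ _p ∈ TT k, (3 * (H : ℝ)) ^ n * (C4 * (1 + 2 * H / k) ^ (n * d)) :=
          Finset.sum_le_sum (hin k hk1)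
      _ = ((TT k).card : ℝ) * ((3 * (H : ℝ)) ^ n * (C4 * (1 + 2 * H / k) ^ (n * d))) := by
          rw [Finset.sum_const, nsmul_eq_mul]
      _ ≤ (C3 * (k : ℝ) ^ e) ^ 3 * ((3 * (H : ℝ)) ^ n * (C4 * (1 + 2 * H / k) ^ (n * d))) := by
          have h6 : ((TT k).card : ℝ) ≤ (C3 * (k : ℝ) ^ e) ^ 3 := by
            have h7 : (TT k).card ≤ (PT k).card * ((PT k).card * (PT k).card) := by
              rw [← Finset.card_product, ← Finset.card_product]
              exact Finset.card_filter_le _ _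
            calc ((TT k).card : ℝ) ≤ ((PT k).card : ℝ) * ((PT k).card * (PT k).card) := by
                  exact_mod_cast h7
              _ ≤ (C3 * (k : ℝ) ^ e) * ((C3 * (k : ℝ) ^ e) * (C3 * (k : ℝ) ^ e)) := by
                  have h9 := hPTc k hk1
                  have h10 : (0 : ℝ) ≤ ((PT k).card : ℝ) := Nat.cast_nonneg _
                  exact mul_le_mul h9 (mul_le_mul h9 h9 h10 (h10.trans h9))
                    (mul_nonneg h10 h10) (h10.trans h9)
              _ = _ := by ring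
          gcongr
      _ = _ := by
          rw [mul_pow, mul_pow, ← pow_mul]
          ring
  calc (W.card : ℝ) ≤ ((∑ k ∈ Finset.Icc 1 M, ((TT k).biUnion fun p => bF.biUnion fun δ =>
      (fib p.1 (p.2.1 0 + io ι δ * p.2.2 0)).image (fun f => (f, δ))).card : ℕ) : ℝ) := by
        rw [hW]
        exact_mod_cast Finset.card_biUnion_le
    _ = ∑ k ∈ Finset.Icc 1 M, (((TT k).biUnion fun p => bF.biUnion fun δ =>
      (fib p.1 (p.2.1 0 + io ι δ * p.2.2 0)).image (fun f => (f, δ))).card : ℝ) := by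
        push_cast; rfl
    _ ≤ ∑ k ∈ Finset.Icc 1 M, (C3 ^ 3 * 3 ^ n * C4 * (H : ℝ) ^ n) *
          ((k : ℝ) ^ (3 * e) * (1 + 2 * H / k) ^ (n * d)) := Finset.sum_le_sum hmid
    _ = (C3 ^ 3 * 3 ^ n * C4 * (H : ℝ) ^ n) *
          ∑ k ∈ Finset.Icc 1 M, (k : ℝ) ^ (3 * e) * (1 + 2 * H / k) ^ (n * d) := by
        rw [Finset.mul_sum]
    _ ≤ (C3 ^ 3 * 3 ^ n * C4 * (H : ℝ) ^ n) *
          (C' * (H : ℝ) ^ ((n : ℝ) * (d + 1) - 1 / 4)) := by
        have := hC' H M hH hM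
        gcongr
    _ = C3 ^ 3 * 3 ^ n * C4 * C' * (H : ℝ) ^ ((n : ℝ) * (d + 2) - 1 / 4) := by
        have h8 : (H : ℝ) ^ ((n : ℝ) * (d + 2) - 1 / 4) =
            (H : ℝ) ^ n * (H : ℝ) ^ ((n : ℝ) * (d + 1) - 1 / 4) := by
          rw [← Real.rpow_natCast, ← Real.rpow_add hH0]
          congr 1
          ring
        rw [h8]
        ring

end Pool.Agent.W803.UB
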